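import Pool.Agent.helper19.MX.SpecD

/-!
# Row mx:BAS: the basis of products
-/

set_option autoImplicit false
set_option linter.unusedVariables false

namespace MX

open Pool.Agent.helper53.AU AN
open scoped Classical Topology IntermediateField
open Finset (range powerset Icc)

noncomputable section

theorem BAS_mul {k F : Type} [Field k] [Field F] [Algebra k F] {x : F} {r : ℕ} {y : ℕ → F}
    {f : ℕ → Polynomial k} (h : AS k F x r y f) {j : ℕ} (hj : j < r) {z : F}
    (hz : z ∈ Submodule.span k⟮x⟯
      (Set.range (fun I : {I : Finset ℕ // I ⊆ range r} => ∏ j ∈ (I : Finset ℕ), y j))) :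
    y j * z ∈ Submodule.span k⟮x⟯
      (Set.range (fun I : {I : Finset ℕ // I ⊆ range r} => ∏ j ∈ (I : Finset ℕ), y j)) := by
  induction hz using Submodule.span_induction with
  | mem w hw =>
    obtain ⟨⟨I, hI⟩, rfl⟩ := hw
    simp only
    by_cases hjI : j ∈ I
    · have h1 : y j * (∏ i ∈ I.erase j, y i) = ∏ i ∈ I, y i := Finset.mul_prod_erase I y hjI
      have hfx : Polynomial.aeval x (f j) ∈ k⟮x⟯ := by
        have h3 := Polynomial.aeval_algebraMap_apply F
          (⟨x, IntermediateField.mem_adjoin_simple_self k x⟩ : k⟮x⟯) (f j)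
        have h4 : algebraMap k⟮x⟯ F ⟨x, IntermediateField.mem_adjoin_simple_self k x⟩ = x := rfl
        rw [h4] at h3
        rw [h3]
        exact SetLike.coe_mem _
      have h2 : y j * (∏ i ∈ I, y i) =
          (⟨Polynomial.aeval x (f j), hfx⟩ : k⟮x⟯) • (∏ i ∈ I.erase j, y i) - ∏ i ∈ I, y i := by
        rw [← h1, IntermediateField.smul_def, smul_eq_mul]
        show _ = Polynomial.aeval x (f j) * _ - _
        rw [← h.eq j hj]
        ring
      rw [h2]
      refine Submodule.sub_mem _ (Submodule.smul_mem _ _ (Submodule.subset_span ?_))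
        (Submodule.subset_span ⟨⟨I, hI⟩, rfl⟩)
      exact ⟨⟨I.erase j, (Finset.erase_subset _ _).trans hI⟩, rfl⟩
    · refine Submodule.subset_span ⟨⟨insert j I, ?_⟩, ?_⟩
      · intro i hi
        rcases Finset.mem_insert.1 hi with rfl | hi
        · exact Finset.mem_range.2 hj
        · exact hI hi
      · exact Finset.prod_insert hjI
  | zero => rw [mul_zero]; exact Submodule.zero_mem _
  | add a b _ _ ha hb => rw [mul_add]; exact Submodule.add_mem _ ha hb
  | smul c a _ ha => rw [mul_smul_comm]; exact Submodule.smul_mem _ c ha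

theorem BAS (hTOW : TOW_stmt) : BAS_stmt := by
  intro k F _ _ _ _ hperf x r y f h
  obtain ⟨hdim, -⟩ := hTOW k F hperf x r y f h
  have hfd : FiniteDimensional k⟮x⟯ F := by
    refine Module.finite_of_finrank_pos ?_
    rw [hdim]
    positivity
  set b : {I : Finset ℕ // I ⊆ range r} → F := fun I => ∏ j ∈ (I : Finset ℕ), y j with hb
  set M : Submodule k⟮x⟯ F := Submodule.span k⟮x⟯ (Set.range b) with hM
  have h1M : (1 : F) ∈ M := Submodule.subset_span ⟨⟨∅, Finset.empty_subset _⟩, Finset.prod_empty⟩
  have hgen : IntermediateField.adjoin k⟮x⟯ (y '' {j | j < r}) = ⊤ := by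
    have h1 := IntermediateField.adjoin_adjoin_left k ({x} : Set F) (y '' {j | j < r})
    rw [h.gen] at h1
    rw [eq_top_iff]
    intro z _
    have h2 : z ∈ IntermediateField.restrictScalars k
        (IntermediateField.adjoin k⟮x⟯ (y '' {j | j < r})) := by
      rw [h1]
      exact IntermediateField.mem_top
    exact h2
  have hadj : Algebra.adjoin k⟮x⟯ (y '' {j | j < r}) = ⊤ := by
    have h1 : (IntermediateField.adjoin k⟮x⟯ (y '' {j | j < r})).toSubalgebra =
        Algebra.adjoin k⟮x⟯ (y '' {j | j < r}) := by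
      apply IntermediateField.adjoin_toSubalgebra_of_isAlgebraic
      intro z _
      exact Algebra.IsAlgebraic.isAlgebraic z
    rw [← h1, hgen]
    rfl
  have key : ∀ z ∈ Algebra.adjoin k⟮x⟯ (y '' {j | j < r}), ∀ w ∈ M, z * w ∈ M := by
    intro z hz
    induction hz using Algebra.adjoin_induction with
    | mem z hz =>
      obtain ⟨j, hj, rfl⟩ := hz
      intro w hw
      exact BAS_mul h hj hw
    | algebraMap c =>
      intro w hw
      rw [← Algebra.smul_def]
      exact Submodule.smul_mem _ _ hw
    | add a c _ _ ha hc =>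
      intro w hw
      rw [add_mul]
      exact Submodule.add_mem _ (ha w hw) (hc w hw)
    | mul a c _ _ ha hc =>
      intro w hw
      rw [mul_assoc]
      exact ha _ (hc w hw)
  have htop : M = ⊤ := by
    rw [eq_top_iff]
    intro z _
    have h1 := key z (by rw [hadj]; exact Algebra.mem_top) 1 h1M
    rwa [mul_one] at h1
  refine ⟨⟨x, h.tr, hfd⟩, ?_, htop⟩
  have : Fintype {I : Finset ℕ // I ⊆ range r} :=
    Fintype.subtype (powerset (range r)) (fun I => Finset.mem_powerset)
  refine linearIndependent_of_top_le_span_of_card_eq_finrank (le_of_eq htop.symm) ?_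
  rw [hdim, Fintype.card_of_subtype (powerset (range r)) (fun I => Finset.mem_powerset),
    Finset.card_powerset, Finset.card_range]

end

end MX
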